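import Pool.Agent.Lib.MP_c1b9d3_an.BGen
import Pool.Agent.Lib.MP_c1b9d3_an.QMain

/-!
A Baire generic convex plane domain is determined by its Dirichlet spectrum among all convex plane
domains.
-/

open MeasureTheory

namespace Pool.Agent.Results.MP_c1b9d3_an.Generic

/-- The `k`-th Dirichlet eigenvalue (`k ≥ 1`, counted with multiplicity) of `-Δ` on `Ω`, by the
min-max principle over compactly supported `C¹` functions. -/
noncomputable def dirichletEigenvalue (Ω : Set (EuclideanSpace ℝ (Fin 2))) (k : ℕ) : ℝ :=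
  sInf {r : ℝ | ∃ V : Submodule ℝ (EuclideanSpace ℝ (Fin 2) → ℝ), Module.finrank ℝ V = k ∧
    ∀ f ∈ V, ContDiff ℝ 1 f ∧ HasCompactSupport f ∧ tsupport f ⊆ Ω ∧
      ∫ x, ‖fderiv ℝ f x‖ ^ 2 ≤ r * ∫ x, f x ^ 2}

/-- The compact convex plane sets with nonempty interior whose interior is congruent to every
convex plane domain with the same Dirichlet spectrum. -/
def determined : Set (ConvexBody (EuclideanSpace ℝ (Fin 2))) :=
  {K | (interior (K : Set (EuclideanSpace ℝ (Fin 2)))).Nonempty ∧
    ∀ D : Set (EuclideanSpace ℝ (Fin 2)), IsOpen D → Convex ℝ D → Bornology.IsBounded D →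
      D.Nonempty →
      (∀ k : ℕ, 1 ≤ k →
        dirichletEigenvalue (interior (K : Set (EuclideanSpace ℝ (Fin 2)))) k =
          dirichletEigenvalue D k) →
      ∃ φ : EuclideanSpace ℝ (Fin 2) ≃ᵢ EuclideanSpace ℝ (Fin 2),
        φ '' interior (K : Set (EuclideanSpace ℝ (Fin 2))) = D}

open Pool.Agent.Lib.MP_c1b9d3_an in
theorem result : IsGδ determined ∧ Dense determined := by
  have e : determined = Det := Set.ext fun K => and_congr_right fun _ =>
    ⟨fun h D hD he => (h D hD.1 hD.2 hD.3 hD.4 he).elim cong_of_image,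
      fun h D h1 h2 h3 h4 he => (h D ⟨h1, h2, h3, h4⟩ he).image⟩
  exact e ▸ ⟨det_Gδ, det_dense match_sides⟩

end Pool.Agent.Results.MP_c1b9d3_an.Generic
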