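import Pool.Agent.Lib.MP_c1b9d3_an.Alg

/-!
Every triangle is determined by its Dirichlet spectrum among all convex plane domains.
-/

open MeasureTheory

namespace Pool.Agent.Results.MP_c1b9d3_an.Triangles

/-- The `k`-th Dirichlet eigenvalue (`k ≥ 1`, counted with multiplicity) of `-Δ` on `Ω`, by the
min-max principle over compactly supported `C¹` functions. -/
noncomputable def dirichletEigenvalue (Ω : Set (EuclideanSpace ℝ (Fin 2))) (k : ℕ) : ℝ :=
  sInf {r : ℝ | ∃ V : Submodule ℝ (EuclideanSpace ℝ (Fin 2) → ℝ), Module.finrank ℝ V = k ∧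
    ∀ f ∈ V, ContDiff ℝ 1 f ∧ HasCompactSupport f ∧ tsupport f ⊆ Ω ∧
      ∫ x, ‖fderiv ℝ f x‖ ^ 2 ≤ r * ∫ x, f x ^ 2}

open Pool.Agent.Lib.MP_c1b9d3_an in
theorem result (A B C : EuclideanSpace ℝ (Fin 2)) (hABC : AffineIndependent ℝ ![A, B, C])
    (D : Set (EuclideanSpace ℝ (Fin 2))) (hopen : IsOpen D) (hconv : Convex ℝ D)
    (hbdd : Bornology.IsBounded D) (hne : D.Nonempty)
    (h : ∀ k : ℕ, 1 ≤ k →
      dirichletEigenvalue (interior (convexHull ℝ {A, B, C})) k = dirichletEigenvalue D k) :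
    ∃ φ : EuclideanSpace ℝ (Fin 2) ≃ᵢ EuclideanSpace ℝ (Fin 2),
      φ '' interior (convexHull ℝ {A, B, C}) = D :=
  (hull_hear ⟨hopen, hconv, hbdd, hne⟩ hABC h).image

end Pool.Agent.Results.MP_c1b9d3_an.Triangles
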